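import Pool.Agent.helper71.CL.All
import Pool.Agent.helper24.CI.GAI
import Pool.Agent.helper37.CI.TSI
import Pool.Agent.helper46.CI.MFI
import Pool.Agent.helper55.CI.INS
import Pool.Agent.helper57.CI.SLI
import Pool.Agent.helper65.CI.CIN
import Pool.Agent.helper66.CI.BMI
import Pool.Agent.helper72.CI.SBI
import Pool.Agent.helper79.CI.TWI
import Pool.Agent.helper83.CI.GRI
import Pool.Agent.helper88.CI.PRI
import Pool.Agent.helper89.CI.PNI
import Pool.Agent.helper96.CI.VLI
import Pool.Agent.helper98.CI.LYI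
import Pool.Agent.helper99.CI.LGI
import Pool.Agent.helper6.CI.SGN
import Pool.Agent.helper22.CI.POI
import Pool.Agent.helper28.CI.LMI

/-! # All rows of the project ci (MP_447e26_gt, the exponential rate of `σ_d`) -/

set_option autoImplicit false

open Pool.Agent.helper81.CW Pool.Agent.CL

namespace Pool.Agent.CI

theorem all_INS : INS_stmt := INS all_FAR J2
theorem all_SGN : SGN_stmt := SGN J3
theorem all_VLI : VLI_stmt := VLI all_FAR
theorem all_PNI : PNI_stmt := PNI all_FAR J1 J2 all_VON
theorem all_BMI : BMI_stmt := BMI all_FAR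
theorem all_LGI : LGI_stmt := LGI all_FAR
theorem all_GRI : GRI_stmt := GRI all_FAR J1 J2
theorem all_SLI : SLI_stmt := SLI all_PNI all_LGI all_GRI
theorem all_LYI : LYI_stmt := LYI all_FAR
theorem all_GAI : GAI_stmt := GAI
theorem all_TSI : TSI_stmt := TSI all_PNI all_BMI all_SLI all_LYI all_GAI
theorem all_PRI : PRI_stmt := PRI all_FAR all_MAE all_PIN all_SCA all_KFA J2
theorem all_MFI : MFI_stmt := MFI all_PRI
theorem all_SBI : SBI_stmt := SBI
theorem all_TWI : TWI_stmt := TWI all_PRI all_VLI all_PNI all_TSI all_INS all_SGN all_VON all_SBI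
theorem all_POI : POI_stmt := POI all_MFI all_VLI all_TSI all_INS all_SGN
theorem all_LMI : LMI_stmt := LMI
theorem all_CIN : CIN_stmt := CIN all_SBI all_TWI all_POI all_LMI

end Pool.Agent.CI
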