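import Pool.Agent.helper71.CL.Spec

/-!
# Project ci (MP_447e26_gt): the exponential rate of `σ_d` exists (inner analogue of project cl)

**Theorem** (CIN, TWI). `σ_d^(1/d)` converges to a number `α`, `√3 - 1 ≤ α ≤ 0.991`, `α^d ≤ 31 d σ_d` for every `d ≥ 1`, and
`σ_(d+e) ≤ 961 d e σ_d σ_e`.

Idea. `far C x` = largest distance of `x` from a point of `C`; `C = {far C ≤ 1}` for a body of constant width `1`. For a centre `z` put
`A_z(u,v) = {x : far x ≤ u, far (2z - x) ≤ v}`; the largest symmetric subset of `C` with centre `z` is `A_z(1,1)`, so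
`innerSym C = N(1)/vol C`, `N(ρ) = sup_z vol A_z(ρ,ρ)`. By Prekopa-Leindler `vol A_z(u,v) ≤ vol A_z(m,m)`, `m = (u+v)/2`, and `N` is
log-concave, with a log-slope `a ≤ 4n` at `1`. With `t = a/2` the integral of `exp (t (1 - (far x² + far (2z-x)²)/2))` is at most
`(2 + √(2πt))² N(1)`, for all `z` at the same time (`t` does not depend on `z`). For products the integral is submultiplicative
(Maehara's completion `W` of the scaled product `K`) and `vol W ≥ vol K`.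

Every module proves one statement: `theorem XX (h : YY_stmt) ... : XX_stmt`, file `Pool/Agent/<seat>/CI/XX.lean`,
`import Pool.Agent.helper81.CI.Spec`, namespace `Pool.Agent.CI`, `open Pool.Agent.helper81.CW Pool.Agent.CL`; auxiliary lemmas prefixed
`XX_`; other statements of this file, of helper71/CL/Spec.lean (all proved, see Pool/Agent/helper71/CL/All.lean) and of
helper81/CW/Spec2.lean (J1, J2, J3 proved) may be hypotheses, or import the finished modules. No sorry, no double quotes.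
Most rows are the analogues of rows of project cl: start from a copy of that proof.
-/

set_option autoImplicit false

open MeasureTheory Set Filter Topology
open scoped ENNReal
open Pool.Agent.helper81.CW Pool.Agent.CL

noncomputable section

namespace Pool.Agent.CI

/-! ### Definitions -/

/-- The points `x` with `far C x ≤ u` and `far C (2z - x) ≤ v`. -/
def AZ {n : ℕ} (C : Set (E n)) (z : E n) (u v : ℝ) : Set (E n) :=
  {x | far C x ≤ u ∧ far C ((2 : ℝ) • z - x) ≤ v}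

/-- The largest volume of `AZ C z ρ ρ`, over all centres `z`. -/
def NN {n : ℕ} (C : Set (E n)) (ρ : ℝ) : ℝ≥0∞ := ⨆ z : E n, volume (AZ C z ρ ρ)

/-- The integral of `exp (t (1 - (far x² + far (2z-x)²)/2))`. -/
def IZ {n : ℕ} (C : Set (E n)) (z : E n) (t : ℝ) : ℝ≥0∞ :=
  ∫⁻ x : E n, ENNReal.ofReal (Real.exp (t * (1 - (far C x ^ 2 + far C ((2 : ℝ) • z - x) ^ 2) / 2)))

/-- The supremum of `IZ C z t` over all centres `z`. -/
def SZ {n : ℕ} (C : Set (E n)) (t : ℝ) : ℝ≥0∞ := ⨆ z : E n, IZ C z t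

/-! ### The inner measure of symmetry and `NN` -/

/-- **INS** (short, 60 lines; FAR, J2). Proof. By J2 `C = {far C ≤ 1}`. If `A ⊆ C` is symmetric with centre `c` then `A ⊆ AZ C c 1 1`;
conversely `AZ C z 1 1 = C ∩ (2z - C)` is a convex subset of `C` with centre `z`. -/
def INS_stmt : Prop := ∀ (n : ℕ) (C : Set (E n)), ConstWidth C 1 → innerSym C = NN C 1 / volume C

/-- **SGN** (medium, 100 lines; J3). Normalisation. Proof. For `C` of width `w` the body `C' = {(1/w) x : x ∈ C}` has width `1` and volume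
`w^(-n) vol C` (J3 with `z = 0`); the symmetric convex subsets of `C'` are the images of those of `C`, volumes are multiplied by
`w^(-n)` (`Measure.addHaar_smul`), so `innerSym C' = innerSym C`. Compare MVN (Pool/Agent/helper25/CL/MVN.lean). -/
def SGN_stmt : Prop := ∀ n : ℕ, sigma n = ⨅ C : {C : Set (E n) // ConstWidth C 1}, innerSym C.1

/-- **VLI** (short, 30 lines; FAR). Proof. On `AZ C z 1 1` both values of `far` are in `[0,1]`, so the integrand is `≥ 1` there. Compare VLE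
(Pool/Agent/helper46/CL/VLE.lean). -/
def VLI_stmt : Prop := ∀ (n : ℕ) (C : Set (E n)) (t : ℝ), ConstWidth C 1 → 0 ≤ t → NN C 1 ≤ SZ C t

/-- **PNI** (short, 50 lines; FAR, J1, VON). Proof. J1: `z`, `r < 1` with `far C z ≤ r`; the ball of radius `1 - r` about `z` is contained in
`AZ C z 1 1` (1-Lipschitz). `AZ C z ρ ρ ⊆ {far C ≤ ρ}`, so `NN C ρ ≤ VV C ρ < ∞`, and `VV C 1 = volume C` (VON). -/
def PNI_stmt : Prop := ∀ (n : ℕ) (C : Set (E n)), ConstWidth C 1 →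
  0 < NN C 1 ∧ (∀ ρ : ℝ, NN C ρ < ∞) ∧ NN C 1 ≤ volume C ∧ Monotone (NN C)

/-- **BMI** (medium, 80 lines; FAR). Proof. `Pool.Agent.helper96.prekopa_leindler` (Pool/Agent/helper96/PL2.lean, `t = 1/2`) with the indicators
of `AZ C z u v`, `AZ C z v u` and of the right side, as in LGC (Pool/Agent/helper63/CL/LGC.lean): if `x ∈ AZ C z u v`, `y ∈ AZ C z v u` then
`(x+y)/2` is in the set on the right, as `far` is convex. `AZ C z v u` is the image of `AZ C z u v` under the measure preserving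
map `x ↦ 2z - x`, so the product of the two square roots is `volume (AZ C z u v)`. -/
def BMI_stmt : Prop := ∀ (n : ℕ) (C : Set (E n)) (z : E n) (u v : ℝ), IsCompact C → C.Nonempty →
  volume (AZ C z u v) ≤ volume (AZ C z ((u + v) / 2) ((u + v) / 2))

/-- **LGI** (medium, 80 lines; FAR). Log-concavity. Proof. For centres `z`, `z'`: `l • AZ C z ρ ρ + (1-l) • AZ C z' σ σ` is contained in
`AZ C (l z + (1-l) z') τ τ`, `τ = l ρ + (1-l) σ` (convexity of `far`), so Prekopa-Leindler as in LGC (Pool/Agent/helper63/CL/LGC.lean); then the suprema over `z` and `z'`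
(`ENNReal.orderIsoRpow` maps the supremum; `ENNReal.iSup_mul`, `ENNReal.mul_iSup`). -/
def LGI_stmt : Prop := ∀ (n : ℕ) (C : Set (E n)) (ρ σ l : ℝ), IsCompact C → C.Nonempty → 0 < l → l < 1 →
  NN C ρ ^ l * NN C σ ^ (1 - l) ≤ NN C (l * ρ + (1 - l) * σ)

/-- **GRI** (medium, 90 lines; FAR, J1). Growth. Proof. J1: `z₀` with `far C z₀ ≤ r`, `r = √(1/2)`. For `ρ > 1` let `l = (1-r)/(ρ-r)`,
`φ x = (1-l) z₀ + l x`. If `far C x ≤ ρ` then `far C (φ x) ≤ 1`; and `2 φ z - φ x = φ (2z - x)`. So `φ` maps `AZ C z ρ ρ` into `AZ C (φ z) 1 1`: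
`l^n volume (AZ C z ρ ρ) ≤ NN C 1`. `l⁻¹ = 1 + (ρ-1)/(1-r) ≤ exp(4 (ρ-1))`. Compare Pool/Agent/helper71/CL/GRO71.lean. -/
def GRI_stmt : Prop := ∀ (n : ℕ) (C : Set (E n)) (ρ : ℝ), ConstWidth C 1 → 1 ≤ ρ →
  NN C ρ ≤ ENNReal.ofReal (Real.exp (4 * n * (ρ - 1))) * NN C 1

/-- **SLI** (medium, 110 lines; PNI, LGI, GRI). A supporting line for `log NN` at `1`. Proof. Word for word SLP
(Pool/Agent/helper71/CL/SLP71.lean) with `NN` in place of `VV`. -/
def SLI_stmt : Prop := ∀ (n : ℕ) (C : Set (E n)), ConstWidth C 1 → ∃ a : ℝ, 0 ≤ a ∧ a ≤ 4 * n ∧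
  ∀ ρ : ℝ, 0 ≤ ρ → NN C ρ ≤ ENNReal.ofReal (Real.exp (a * (ρ - 1))) * NN C 1

/-! ### The integral -/

/-- **LYI** (medium, 100 lines; FAR). Double layer cake. Proof. For `r ≥ 0`: `exp (t/2 - t r²/2) = ∫_(u > r) t u exp (t/2 - t u²/2) du`. The
integrand of `IZ` is the product of the two exponentials with `r = far C x` and `r = far C (2z - x)`; insert and exchange (Tonelli).
`{far x < u, far (2z-x) < v} ⊆ AZ C z u v`. Compare LAY (Pool/Agent/helper87/CL/LAY.lean). -/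
def LYI_stmt : Prop := ∀ (n : ℕ) (C : Set (E n)) (z : E n) (t : ℝ), IsCompact C → C.Nonempty → 0 < t →
  IZ C z t ≤ ∫⁻ u in Ioi (0 : ℝ), ∫⁻ v in Ioi (0 : ℝ),
    ENNReal.ofReal (t * u * Real.exp (t / 2 - t * u ^ 2 / 2)) *
      (ENNReal.ofReal (t * v * Real.exp (t / 2 - t * v ^ 2 / 2)) * volume (AZ C z u v))

/-- **GAI** (medium, 80 lines). Proof. `t/2 - t u²/2 + t (u-1) = - t (u-1)²/2`; `u ≤ |u-1| + 1`; `∫ |s| exp(-t s²/2) = 2/t`,
`∫ exp (-t s²/2) = √(2π/t)`; so the first integral is `≤ 2 + √(2 π t)`. The second one is `exp (1/2) ≤ 1.7`. Compare GAU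
(Pool/Agent/helper62/CL/GAU.lean). -/
def GAI_stmt : Prop := (∀ t : ℝ, 0 < t →
    ∫⁻ u in Ioi (0 : ℝ), ENNReal.ofReal (t * u * Real.exp (t / 2 - t * u ^ 2 / 2)) *
      ENNReal.ofReal (Real.exp (t * (u - 1))) ≤ ENNReal.ofReal (2 + √(2 * Real.pi * t))) ∧
  ∫⁻ u in Ioi (0 : ℝ), ENNReal.ofReal (1 * u * Real.exp (1 / 2 - 1 * u ^ 2 / 2)) ≤ ENNReal.ofReal 1.7

/-- **TSI** (medium, 90 lines; BMI, SLI, LYI, GAI). The good parameter. Proof. `a` from SLI. If `a > 0`: `t = a/2 ≤ 2n`. By BMI and SLI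
`volume (AZ C z u v) ≤ NN C ((u+v)/2) ≤ exp(2t((u+v)/2 - 1)) NN C 1`, and `exp(2t((u+v)/2-1)) = exp(t(u-1)) exp(t(v-1))`; LYI: the double
integral is the product of two equal integrals (`lintegral_const_mul`, `lintegral_mul_const`), GAI:
`IZ C z t ≤ (2 + √(2πt))² NN C 1`, `(2 + √(4πn))² ≤ 31 n` (`n ≥ 1`, `π ≤ 3.15`). If `a = 0`: `NN C ρ ≤ NN C 1` for `ρ ≥ 0`, `t = 1 ≤ 2n`, second part of
GAI, `1.7² ≤ 31 n`. -/
def TSI_stmt : Prop := ∀ (n : ℕ) (C : Set (E n)), 1 ≤ n → ConstWidth C 1 → ∃ t : ℝ, 0 < t ∧ t ≤ 2 * n ∧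
  SZ C t ≤ ENNReal.ofReal (31 * (n : ℝ)) * NN C 1

/-! ### Products -/

/-- **PRI** (medium, 130 lines; FAR, MAE, PRJ, PIN, SCA, KFA, J2). The product inequality. Proof. `C` from MAE for `K = KK d e α β C₁ C₂` as in PRD
(Pool/Agent/helper89/CL/PRD.lean). Volume: `K = {x : p1 x ∈ √α C₁, p2 x ∈ √β C₂} ⊆ C`; PIN with the indicators, SCA. Integral: for a centre `z` let
`z₁ = (√α)⁻¹ p1 z`, `z₂ = (√β)⁻¹ p2 z`; `far C ≥ far K ≥ 0` and KFA at `x` and at `2z - x` give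
`(far C x² + far C (2z-x)²)/2 ≥ α g₁(p1 x/√α) + β g₂(p2 x/√β)`, `g_i(y) = (far C_i y² + far C_i (2z_i - y)²)/2`; so the integrand for `(C, z, T)` is at
most the product of those for `(C₁, z₁, Tα)` and `(C₂, z₂, Tβ)`; PIN, SCA; supremum over `z`. -/
def PRI_stmt : Prop := ∀ (d e : ℕ) (C₁ : Set (E d)) (C₂ : Set (E e)) (α β : ℝ),
  ConstWidth C₁ 1 → ConstWidth C₂ 1 → 0 < α → 0 < β → α + β = 1 →
  ∃ C : Set (E (d + e)), ConstWidth C 1 ∧
    ENNReal.ofReal (√α ^ d * √β ^ e) * (volume C₁ * volume C₂) ≤ volume C ∧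
    ∀ T : ℝ, 0 ≤ T → SZ C T ≤ ENNReal.ofReal (√α ^ d * √β ^ e) * (SZ C₁ (T * α) * SZ C₂ (T * β))

/-- **MFI** (medium, 90 lines; PRI). The `m`-fold product. Proof. Induction on `m` as in MFO (Pool/Agent/helper75/CL/MFO.lean). Step: PRI for
`(C'_m, C)` with `α = m/(m+1)`, `β = 1/(m+1)`, `T = (m+1) t`; `√α^(md) √β^d / √m^(md) = 1/√(m+1)^((m+1)d)`. -/
def MFI_stmt : Prop := ∀ (d : ℕ) (C : Set (E d)) (t : ℝ), ConstWidth C 1 → 0 < t →
  ∀ m : ℕ, 1 ≤ m → ∀ n : ℕ, n = m * d → ∃ C' : Set (E n), ConstWidth C' 1 ∧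
    ENNReal.ofReal (1 / √(m : ℝ) ^ (m * d)) * volume C ^ m ≤ volume C' ∧
    SZ C' (m * t) ≤ ENNReal.ofReal (1 / √(m : ℝ) ^ (m * d)) * SZ C t ^ m

/-! ### The theorem -/

/-- **TWI** (medium, 100 lines; PRI, VLI, PNI, TSI, INS, SGN, VON). Proof. Let `C₁`, `C₂` have width `1`, `t₁`, `t₂` from TSI, `T = t₁ + t₂`, `α = t₁/T`,
`β = t₂/T`, `C` from PRI: `NN C 1 ≤ SZ C T ≤ √α^d √β^e (31 d NN C₁ 1)(31 e NN C₂ 1)` and `volume C ≥ √α^d √β^e volume C₁ volume C₂`. Divide (INS), infimum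
over `C₁` and over `C₂` (SGN; all volumes are positive and finite). Compare TWO (Pool/Agent/helper45/CL/TWO.lean). -/
def TWI_stmt : Prop := ∀ d e : ℕ, 1 ≤ d → 1 ≤ e →
  sigma (d + e) ≤ ENNReal.ofReal (961 * (d : ℝ) * (e : ℝ)) * (sigma d * sigma e)

/-- **POI** (medium, 100 lines; MFI, VLI, PNI, TSI, INS, SGN, VON). Proof. `C` of width `1`, `t` from TSI, `C'` from MFI:
`innerSym C' = NN C' 1/volume C' ≤ SZ C' (m t)/volume C' ≤ (31 d NN C 1/volume C)^m = (31 d innerSym C)^m`. Infimum over `C`. Compare POW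
(Pool/Agent/helper30/CL/POW.lean). -/
def POI_stmt : Prop := ∀ d m : ℕ, 1 ≤ d → 1 ≤ m →
  sigma (m * d) ≤ (ENNReal.ofReal (31 * (d : ℝ)) * sigma d) ^ m

/-- **SBI** (short, 50 lines; SGN, INS, PNI). Proof. `innerSym C ≤ 1` by INS and PNI (a body of width `1` exists: the ball of radius `1/2`, see MVB,
Pool/Agent/helper91/CL/MVB.lean). Lower bound: `lower_sigma` in Pool/Agent/helper81/CW/Lower.lean with `s = √(2/(n+1)) ∈ (0,1]`:
`(1.6 + s)² ≤ 3 + 2s + 2s²` because `0.44 - 1.2 s + s² ≥ 0`. -/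
def SBI_stmt : Prop := ∀ n : ℕ, 1 ≤ n → sigma n ≤ 1 ∧ ENNReal.ofReal (0.6 ^ n) ≤ sigma n

/-- **LMI** (medium, 120 lines, real analysis). Proof as LIM (Pool/Agent/helper33/CL/LIM.lean). `g d = (A d f d)^(1/d)`, `α = inf_(d ≥ 1) g d ≥ c`.
`f n^(1/n) ≥ α/(A n)^(1/n)`. Fix `d ≥ 1`. For `n > d` write `n = m d + r`, `1 ≤ r ≤ d`, `m ≥ 1`:
`f n ≤ A² (m d) r f(m d) f(r) ≤ A² n² (A d f d)^m`, and `m/n → 1/d`. -/
def LMI_stmt : Prop := ∀ (f : ℕ → ℝ) (c A : ℝ), 0 < c → 1 ≤ A → (∀ n, 1 ≤ n → 0 < f n ∧ f n ≤ 1 ∧ c ^ n ≤ f n) →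
  (∀ d m : ℕ, 1 ≤ d → 1 ≤ m → f (m * d) ≤ (A * (d : ℝ) * f d) ^ m) →
  (∀ d e : ℕ, 1 ≤ d → 1 ≤ e → f (d + e) ≤ A ^ 2 * (d : ℝ) * (e : ℝ) * (f d * f e)) →
  ∃ α : ℝ, c ≤ α ∧ Tendsto (fun n : ℕ => f n ^ (1 / (n : ℝ))) atTop (𝓝 α) ∧
    ∀ d : ℕ, 1 ≤ d → α ^ d ≤ A * (d : ℝ) * f d

/-- **CIN** (medium, 90 lines; SBI, TWI, POI, LMI). The theorem. Proof. `f n = (sigma n).toReal`, `c = 0.6`, `A = 31`. `α ≥ √3 - 1`: by `lower_sigma`
(Pool/Agent/helper81/CW/Lower.lean) `f n^(1/n) ≥ √(3 + 2s + 2s²) - 1 - s → √3 - 1` for `s = √(2/(n+1)) → 0`; `α ≤ 0.991` by `upper_sigma` (Pool/Agent/helper81/CW/Upper.lean). Compare CFIN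
(Pool/Agent/helper60/CL/CFIN.lean). -/
def CIN_stmt : Prop := ∃ α : ℝ, √3 - 1 ≤ α ∧ α ≤ 0.991 ∧
  Tendsto (fun n : ℕ => (sigma n).toReal ^ (1 / (n : ℝ))) atTop (𝓝 α) ∧
  ∀ d : ℕ, 1 ≤ d → ENNReal.ofReal (α ^ d) ≤ ENNReal.ofReal (31 * (d : ℝ)) * sigma d

end Pool.Agent.CI
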